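import Mathlib
import Pool.Agent.H923R2.DegMap

/-!
# Sequences which are not given by finitely many P-recursive sequences

`G` is the ring of the germs at infinity of the sequences of complex numbers, a vector space over the
field `F` of rational functions.
-/

set_option autoImplicit false

open Polynomial Filter

noncomputable section

namespace Pool.Agent.Y166.HO

/-- a P-recursive (holonomic) sequence `(L_n)_{n ≥ 1}`: it satisfies a linear recurrence with
polynomial coefficients -/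
def IsPRec (L : ℕ → ℂ) : Prop :=
  ∃ (k : ℕ) (p : ℕ → ℂ[X]), p k ≠ 0 ∧
    ∀ n : ℕ, 1 ≤ n → ∑ i ∈ Finset.range (k + 1), (p i).eval (n : ℂ) * L (n + i) = 0

/-- the sequence is given by finitely many P-recursive sequences -/
def FinitelyManyPRec (e : ℕ → ℕ) : Prop :=
  ∃ (r : ℕ) (L : Fin r → ℕ → ℂ) (ι : ℕ → Fin r),
    (∀ i, IsPRec (L i)) ∧ ∀ n, 1 ≤ n → (e n : ℂ) = L (ι n) n

/-! ### Germs -/

/-- germs at infinity of sequences -/
abbrev G : Type := Germ (atTop : Filter ℕ) ℂ

/-- rational functions -/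
abbrev F : Type := FractionRing ℂ[X]

/-- the germ of a sequence -/
def gm : (ℕ → ℂ) →+* G := Germ.coeRingHom atTop

lemma gm_eq_zero {f : ℕ → ℂ} : gm f = 0 ↔ ∀ᶠ n in atTop, f n = 0 := by
  have h : (0 : G) = ((0 : ℕ → ℂ) : G) := rfl
  rw [h]
  exact Germ.coe_eq

lemma gm_eq {f g : ℕ → ℂ} : gm f = gm g ↔ ∀ᶠ n in atTop, f n = g n := Germ.coe_eq

/-- a polynomial as a sequence -/
def sq : ℂ[X] →+* (ℕ → ℂ) := RingHom.pi fun n : ℕ => Polynomial.evalRingHom (n : ℂ)

lemma sq_apply (p : ℂ[X]) (n : ℕ) : sq p n = p.eval (n : ℂ) := rfl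

/-- the germ of a polynomial -/
def ev : ℂ[X] →+* G := gm.comp sq

lemma eventually_ne {p : ℂ[X]} (hp : p ≠ 0) : ∀ᶠ n : ℕ in atTop, p.eval (n : ℂ) ≠ 0 := by
  have h : {n : ℕ | p.eval (n : ℂ) = 0}.Finite := by
    have h1 : {z : ℂ | p.eval z = 0}.Finite := by
      refine (p.roots.toFinset.finite_toSet).subset fun z hz => ?_
      have h2 : p.eval z = 0 := hz
      simpa [hp] using h2
    exact h1.preimage (Nat.cast_injective.injOn)
  rw [← Nat.cofinite_eq_atTop]
  exact h.compl_mem_cofinite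

lemma ev_unit {p : ℂ[X]} (hp : p ≠ 0) : IsUnit (ev p) := by
  refine IsUnit.of_mul_eq_one (gm fun n => (p.eval (n : ℂ))⁻¹) ?_
  change gm (sq p) * _ = 1
  rw [← map_mul, ← map_one gm, gm_eq]
  filter_upwards [eventually_ne hp] with n hn
  change p.eval (n : ℂ) * (p.eval (n : ℂ))⁻¹ = 1
  exact mul_inv_cancel₀ hn

instance algFG : Algebra F G :=
  (IsLocalization.lift (M := nonZeroDivisors ℂ[X]) (S := F) (g := ev)
    (fun y => ev_unit (nonZeroDivisors.ne_zero y.2))).toAlgebra

lemma alg_poly (p : ℂ[X]) : algebraMap F G (algebraMap ℂ[X] F p) = ev p :=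
  IsLocalization.lift_eq _ _

/-- the shift -/
def T : G →+* G where
  toFun g := g.compTendsto (· + 1) (tendsto_add_atTop_nat 1)
  map_one' := rfl
  map_mul' := by
    intro a b
    induction a, b using Germ.inductionOn₂
    rfl
  map_zero' := rfl
  map_add' := by
    intro a b
    induction a, b using Germ.inductionOn₂
    rfl

lemma T_gm (v : ℕ → ℂ) : T (gm v) = gm fun n => v (n + 1) := rfl

lemma T_ev (p : ℂ[X]) : T (ev p) = ev (p.comp (X + C 1)) := by
  change T (gm (sq p)) = gm (sq _)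
  rw [T_gm]
  congr 1
  funext n
  rw [sq_apply, sq_apply, eval_comp]
  simp

lemma T_alg (q : F) : ∃ q' : F, T (algebraMap F G q) = algebraMap F G q' := by
  obtain ⟨p, d, hd, rfl⟩ := IsFractionRing.div_surjective (A := ℂ[X]) q
  have hd0 : d ≠ 0 := nonZeroDivisors.ne_zero hd
  have hd1 : d.comp (X + C 1) ≠ 0 := fun h => hd0 ((comp_X_add_C_eq_zero_iff).1 h)
  have hdF : algebraMap ℂ[X] F d ≠ 0 := by
    simpa using hd0
  have hd1F : algebraMap ℂ[X] F (d.comp (X + C 1)) ≠ 0 := by
    simpa using hd1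
  refine ⟨algebraMap ℂ[X] F (p.comp (X + C 1)) / algebraMap ℂ[X] F (d.comp (X + C 1)), ?_⟩
  have hu := ev_unit hd1
  apply (hu.mul_left_inj).1
  have h1 : T (algebraMap F G (algebraMap ℂ[X] F p / algebraMap ℂ[X] F d)) *
      ev (d.comp (X + C 1)) = ev (p.comp (X + C 1)) := by
    rw [← T_ev, ← map_mul, ← alg_poly, ← map_mul, div_mul_cancel₀ _ hdF, alg_poly, T_ev]
  rw [h1, ← alg_poly (d.comp (X + C 1)), ← map_mul, div_mul_cancel₀ _ hd1F, alg_poly]

lemma T_smul (q : F) : ∃ q' : F, ∀ v : G, T (q • v) = q' • T v := by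
  obtain ⟨q', hq⟩ := T_alg q
  refine ⟨q', fun v => ?_⟩
  rw [Algebra.smul_def, Algebra.smul_def, map_mul, hq]

/-! ### Good spaces -/

/-- a finite-dimensional space of germs which is invariant under the shift -/
def Good (V : Submodule F G) : Prop := V.FG ∧ ∀ v ∈ V, T v ∈ V

theorem good_sup {V W : Submodule F G} (hV : Good V) (hW : Good W) : Good (V ⊔ W) := by
  refine ⟨hV.1.sup hW.1, fun v hv => ?_⟩
  obtain ⟨x, hx, y, hy, rfl⟩ := Submodule.mem_sup.1 hv
  rw [map_add]
  exact Submodule.add_mem_sup (hV.2 x hx) (hW.2 y hy)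

theorem good_mul {V W : Submodule F G} (hV : Good V) (hW : Good W) : Good (V * W) := by
  refine ⟨hV.1.mul hW.1, fun v hv => ?_⟩
  refine Submodule.mul_induction_on hv (fun x hx y hy => ?_) (fun x y hx hy => ?_)
  · rw [map_mul]
    exact Submodule.mul_mem_mul (hV.2 x hx) (hW.2 y hy)
  · rw [map_add]
    exact Submodule.add_mem _ hx hy

theorem good_one : Good (1 : Submodule F G) := by
  refine ⟨?_, fun v hv => ?_⟩
  · rw [Submodule.one_eq_span]
    exact Submodule.fg_span_singleton _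
  · rw [Submodule.mem_one] at hv ⊢
    obtain ⟨y, rfl⟩ := hv
    obtain ⟨q', hq⟩ := T_alg y
    exact ⟨q', hq.symm⟩

/-- a criterion -/
theorem good_span {S : Set G} (hS : S.Finite) (h : ∀ s ∈ S, T s ∈ Submodule.span F S) :
    Good (Submodule.span F S) := by
  refine ⟨Submodule.fg_span hS, fun v hv => ?_⟩
  induction hv using Submodule.span_induction with
  | mem x hx => exact h x hx
  | zero => rw [map_zero]; exact Submodule.zero_mem _
  | add x y _ _ hx hy => rw [map_add]; exact Submodule.add_mem _ hx hy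
  | smul a x _ hx =>
    obtain ⟨a', ha⟩ := T_smul a
    rw [ha]
    exact Submodule.smul_mem _ _ hx

/-- the sequences with germ in `W` -/
def pull (W : Submodule F G) : Submodule ℂ (ℕ → ℂ) where
  carrier := {z | gm z ∈ W}
  add_mem' := by
    intro a b ha hb
    change gm (a + b) ∈ W
    rw [map_add]
    exact W.add_mem ha hb
  zero_mem' := by
    change gm 0 ∈ W
    rw [map_zero]
    exact W.zero_mem
  smul_mem' := by
    intro c z hz
    change gm (c • z) ∈ W
    have h : gm (c • z) = algebraMap ℂ[X] F (C c) • gm z := by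
      have h0 : algebraMap ℂ[X] F (C c) • gm z = ev (C c) * gm z := by
        rw [Algebra.smul_def, alg_poly]
      rw [h0]
      change _ = gm (sq (C c)) * gm z
      rw [← map_mul]
      congr 1
      funext n
      simp [sq_apply]
    rw [h]
    exact W.smul_mem _ hz

lemma mem_pull {W : Submodule F G} {z : ℕ → ℂ} : z ∈ pull W ↔ gm z ∈ W := Iff.rfl

lemma pull_mul (V W : Submodule F G) : pull V * pull W ≤ pull (V * W) := by
  rw [Submodule.mul_le]
  intro m hm n hn
  rw [mem_pull, map_mul]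
  exact Submodule.mul_mem_mul hm hn

/-- sequences in good spaces -/
def Hol (v : ℕ → ℂ) : Prop := ∃ V, Good V ∧ v ∈ pull V

theorem hol_of_prec {L : ℕ → ℂ} (h : IsPRec L) : Hol L := by
  obtain ⟨k, p, hp, hrec⟩ := h
  let g : ℕ → G := fun i => gm fun n => L (n + i)
  let V : Submodule F G := Submodule.span F (Set.range fun i : Fin k => g i)
  have hlt : ∀ i, i < k → g i ∈ V := fun i hi => Submodule.subset_span ⟨⟨i, hi⟩, rfl⟩
  have hk : g k ∈ V := by
    have h1 : ∑ i ∈ Finset.range (k + 1), ev (p i) * g i = 0 := by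
      have h2 : ∑ i ∈ Finset.range (k + 1), ev (p i) * g i =
          gm (∑ i ∈ Finset.range (k + 1), sq (p i) * fun n => L (n + i)) := by
        rw [map_sum]
        refine Finset.sum_congr rfl fun i _ => ?_
        rw [map_mul]
        rfl
      rw [h2, gm_eq_zero]
      filter_upwards [eventually_ge_atTop 1] with n hn
      rw [Finset.sum_apply]
      exact hrec n hn
    rw [Finset.sum_range_succ] at h1
    have h3 : ev (p k) * g k = algebraMap ℂ[X] F (p k) • g k := by
      rw [Algebra.smul_def, alg_poly]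
    have h4 : algebraMap ℂ[X] F (p k) • g k ∈ V := by
      rw [← h3, eq_neg_of_add_eq_zero_right h1]
      refine V.neg_mem (Submodule.sum_mem _ fun i hi => ?_)
      have h5 : ev (p i) * g i = algebraMap ℂ[X] F (p i) • g i := by
        rw [Algebra.smul_def, alg_poly]
      rw [h5]
      exact V.smul_mem _ (hlt i (Finset.mem_range.1 hi))
    have hne : algebraMap ℂ[X] F (p k) ≠ 0 := by simpa using hp
    exact (Submodule.smul_mem_iff _ hne).1 h4
  have hle : ∀ i, i ≤ k → g i ∈ V := by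
    intro i hi
    rcases Nat.lt_or_eq_of_le hi with h1 | h1
    · exact hlt i h1
    · rw [h1]
      exact hk
  refine ⟨V, good_span (Set.finite_range _) ?_, hle 0 (Nat.zero_le _)⟩
  rintro _ ⟨i, rfl⟩
  have h1 : T (g i) = g (i + 1) := by
    change T (gm _) = gm _
    rw [T_gm]
    congr 1
    funext n
    congr 1
    omega
  change T (g i) ∈ V
  rw [h1]
  exact hle _ i.2

/-- sequences with a recurrence with constant coefficients -/
theorem hol_of_good {V : Submodule ℂ (ℕ → ℂ)} (hV : H923R2.DegRec.Good V) {v : ℕ → ℂ}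
    (hv : v ∈ V) : Hol v := by
  obtain ⟨S, hS⟩ := hV.1
  have hle : V ≤ pull (Submodule.span F (gm '' (S : Set (ℕ → ℂ)))) := by
    rw [← hS, Submodule.span_le]
    intro s hs
    exact Submodule.subset_span ⟨s, hs, rfl⟩
  refine ⟨Submodule.span F (gm '' (S : Set (ℕ → ℂ))), good_span (S.finite_toSet.image _) ?_,
    hle hv⟩
  rintro _ ⟨s, hs, rfl⟩
  rw [T_gm]
  exact hle (hV.2 s (hS ▸ Submodule.subset_span hs))

/-- subsequences along arithmetic progressions -/
theorem good_ap {V : Submodule ℂ (ℕ → ℂ)} (hV : H923R2.DegRec.Good V) (a m : ℕ) :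
    H923R2.DegRec.Good (V.map (LinearMap.funLeft ℂ ℂ fun n : ℕ => a + m * n)) := by
  refine ⟨hV.1.map _, ?_⟩
  rintro _ ⟨v, hv, rfl⟩
  have h1 : ∀ (j : ℕ) (w : ℕ → ℂ), w ∈ V → (fun n => w (n + j)) ∈ V := by
    intro j
    induction j with
    | zero => intro w hw; exact hw
    | succ j ih =>
      intro w hw
      have h2 := ih _ (hV.2 w hw)
      have h3 : (fun n => w (n + (j + 1))) = fun n => H923R2.DegRec.shift w (n + j) := by
        funext n
        rfl
      rw [h3]
      exact h2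
  refine ⟨_, h1 m v hv, ?_⟩
  funext n
  simp only [LinearMap.funLeft_apply, H923R2.DegRec.shift]
  congr 1
  ring

/-- a common recurrence -/
theorem window {Z : Submodule ℂ (ℕ → ℂ)} (hZ : Z.FG) {W : Submodule F G} (hW : Good W)
    (hZW : Z ≤ pull W) : ∃ D N : ℕ, ∀ v ∈ Z, ∀ n₀, N ≤ n₀ → (∀ d < D, v (n₀ + d) = 0) →
      ∀ n, n₀ ≤ n → v n = 0 := by
  classical
  obtain ⟨S, hS⟩ := hZ
  have : Module.Finite F W := Module.Finite.iff_fg.2 hW.1
  have hmem : ∀ (i : ℕ) (z : S), gm (fun n => z.1 (n + i)) ∈ W := by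
    intro i z
    induction i with
    | zero => exact hZW (hS ▸ Submodule.subset_span z.2)
    | succ i ih =>
      have h1 := hW.2 _ ih
      rw [T_gm] at h1
      have h2 : (fun n => z.1 (n + (i + 1))) = fun n => z.1 (n + 1 + i) := by
        funext n
        rw [show n + (i + 1) = n + 1 + i by omega]
      rw [h2]
      exact h1
  let u : ℕ → (S → W) := fun i z => ⟨gm fun n => z.1 (n + i), hmem i z⟩
  let D := Module.finrank F (S → W)
  have hdep : ¬ LinearIndependent F (fun i : Fin (D + 1) => u i) := by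
    intro h
    have h1 := h.fintype_card_le_finrank
    rw [Fintype.card_fin] at h1
    exact absurd h1 (by simp [D])
  obtain ⟨g, hg, i₀, hi₀⟩ := Fintype.not_linearIndependent_iff.1 hdep
  obtain ⟨b, hb⟩ := IsLocalization.exist_integer_multiples_of_finite (nonZeroDivisors ℂ[X]) g
  choose p hp using hb
  have hb0 : (b : ℂ[X]) ≠ 0 := nonZeroDivisors.ne_zero b.2
  let q : ℕ → ℂ[X] := fun i => if h : i < D + 1 then p ⟨i, h⟩ else 0
  have hqi : ∀ i : Fin (D + 1), q i = p i := fun i => by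
    have h := i.2
    simp only [q]
    rw [dif_pos h]
  have hq0 : q i₀ ≠ 0 := by
    rw [hqi]
    intro h
    have h1 := hp i₀
    rw [h, map_zero, Algebra.smul_def] at h1
    rcases mul_eq_zero.1 h1.symm with h2 | h2
    · exact hb0 (by
        simp at h2)
    · exact hi₀ h2
  have hrel : ∀ z : S, ∀ᶠ n : ℕ in atTop,
      ∑ i ∈ Finset.range (D + 1), (q i).eval (n : ℂ) * z.1 (n + i) = 0 := by
    intro z
    have h1 : ∑ i : Fin (D + 1), g i • (u i z : G) = 0 := by
      have h2 := congrArg (fun f : S → W => ((f z : W) : G)) hg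
      simpa using h2
    have h3 : ∑ i : Fin (D + 1), ev (q i) * gm (fun n => z.1 (n + i)) = 0 := by
      have h4 : algebraMap ℂ[X] F (b : ℂ[X]) • ∑ i : Fin (D + 1), g i • (u i z : G) = 0 := by
        rw [h1, smul_zero]
      rw [Finset.smul_sum] at h4
      rw [← h4]
      refine Finset.sum_congr rfl fun i _ => ?_
      rw [hqi, ← alg_poly, hp i, smul_smul, Algebra.smul_def, Algebra.smul_def]
    rw [Fin.sum_univ_eq_sum_range (fun i => ev (q i) * gm (fun n => z.1 (n + i))) (D + 1)] at h3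
    have h5 : ∑ i ∈ Finset.range (D + 1), ev (q i) * gm (fun n => z.1 (n + i)) =
        gm (∑ i ∈ Finset.range (D + 1), sq (q i) * fun n => z.1 (n + i)) := by
      rw [map_sum]
      refine Finset.sum_congr rfl fun i _ => ?_
      rw [map_mul]
      rfl
    rw [h5, gm_eq_zero] at h3
    filter_upwards [h3] with n hn
    rw [Finset.sum_apply] at hn
    exact hn
  let m := Nat.findGreatest (fun i => q i ≠ 0) D
  have hm : q m ≠ 0 :=
    Nat.findGreatest_spec (P := fun i => q i ≠ 0) (m := (i₀ : ℕ)) (by omega) hq0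
  have hmD : m ≤ D := Nat.findGreatest_le _
  have hgt : ∀ i, m < i → i ≤ D → q i = 0 := by
    intro i h1 h2
    by_contra h3
    exact absurd h3 (Nat.findGreatest_is_greatest h1 h2)
  have hrel' : ∀ᶠ n : ℕ in atTop, (∀ z : S,
      ∑ i ∈ Finset.range (m + 1), (q i).eval (n : ℂ) * z.1 (n + i) = 0) ∧
      (q m).eval (n : ℂ) ≠ 0 := by
    have h1 := Filter.eventually_all.2 hrel
    filter_upwards [h1, eventually_ne hm] with n hn hn'
    refine ⟨fun z => ?_, hn'⟩
    rw [← hn z]
    refine Finset.sum_subset (Finset.range_subset_range.2 (by omega)) fun i h2 h3 => ?_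
    rw [Finset.mem_range] at h2 h3
    rw [hgt i (by omega) (by omega), eval_zero, zero_mul]
  obtain ⟨N, hN⟩ := eventually_atTop.1 hrel'
  have hall : ∀ v ∈ Z, ∀ n, N ≤ n →
      ∑ i ∈ Finset.range (m + 1), (q i).eval (n : ℂ) * v (n + i) = 0 := by
    intro v hv n hn
    rw [← hS] at hv
    induction hv using Submodule.span_induction with
    | mem x hx => exact (hN n hn).1 ⟨x, hx⟩
    | zero => simp
    | add x y _ _ hx hy =>
      rw [← add_zero (0 : ℂ)]
      nth_rewrite 2 [← hx]
      rw [← hy, ← Finset.sum_add_distrib]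
      refine Finset.sum_congr rfl fun i _ => ?_
      rw [Pi.add_apply]
      ring
    | smul c x _ hx =>
      rw [← mul_zero c, ← hx, Finset.mul_sum]
      refine Finset.sum_congr rfl fun i _ => ?_
      rw [Pi.smul_apply, smul_eq_mul]
      ring
  refine ⟨m, N, fun v hv n₀ hn₀ h0 n hn => ?_⟩
  obtain ⟨j, rfl⟩ := Nat.exists_eq_add_of_le hn
  clear hn
  induction j using Nat.strong_induction_on with
  | _ j ih =>
    by_cases hj : j < m
    · exact h0 j hj
    · have h1 := hall v hv (n₀ + (j - m)) (by omega)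
      rw [Finset.sum_range_succ, Finset.sum_eq_zero, zero_add] at h1
      · rcases mul_eq_zero.1 h1 with h2 | h2
        · exact absurd h2 (hN _ (by omega)).2
        · rw [show n₀ + j = n₀ + (j - m) + m by omega]
          exact h2
      · intro i hi
        rw [Finset.mem_range] at hi
        rw [show n₀ + (j - m) + i = n₀ + (j - m + i) by omega, ih (j - m + i) (by omega), mul_zero]

/-- products of affine expressions -/
theorem exists_prod {r : ℕ} (a : ℕ → ℂ) (b : Fin r → ℕ → ℂ) (ha : Hol a) (hb : ∀ i, Hol (b i))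
    (s : Finset (Fin r)) : ∃ (Z : Submodule ℂ (ℕ → ℂ)) (W : Submodule F G), Z.FG ∧ Good W ∧
      Z ≤ pull W ∧ ∀ e : ℂ, (∏ i ∈ s, (e • a + b i)) ∈ Z := by
  induction s using Finset.induction_on with
  | empty =>
    refine ⟨Submodule.span ℂ {1}, 1, Submodule.fg_span_singleton _, good_one, ?_, fun e => ?_⟩
    · rw [Submodule.span_singleton_le_iff_mem, mem_pull, map_one]
      exact Submodule.one_le.1 le_rfl
    · rw [Finset.prod_empty]
      exact Submodule.mem_span_singleton_self _
  | insert i s hi ih =>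
    obtain ⟨Z, W, hZ, hW, hZW, he⟩ := ih
    obtain ⟨V₁, hV₁, h1⟩ := ha
    obtain ⟨V₂, hV₂, h2⟩ := hb i
    refine ⟨Submodule.span ℂ {a, b i} * Z, (V₁ ⊔ V₂) * W,
      (Submodule.fg_span (by simp)).mul hZ, good_mul (good_sup hV₁ hV₂) hW, ?_, fun e => ?_⟩
    · refine le_trans (mul_le_mul' ?_ hZW) (pull_mul _ _)
      rw [Submodule.span_le]
      intro x hx
      rcases hx with rfl | hx
      · exact Submodule.mem_sup_left (S := V₁) (T := V₂) h1
      · rw [Set.mem_singleton_iff] at hx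
        subst hx
        exact Submodule.mem_sup_right (S := V₁) (T := V₂) h2
    · rw [Finset.prod_insert hi]
      refine Submodule.mul_mem_mul ?_ (he e)
      exact Submodule.add_mem _ (Submodule.smul_mem _ _ (Submodule.subset_span (by simp)))
        (Submodule.subset_span (by simp))

/-- Main lemma. -/
theorem not_finitely_many (r : ℕ) (E a s : ℕ → ℂ) (L : Fin r → ℕ → ℂ) (ι : ℕ → Fin r)
    (ha0 : ∀ n, a n ≠ 0) (ha : Hol a) (hs : Hol s) (hL : ∀ i, Hol (L i))
    (hE : ∀ n, 1 ≤ n → E n = L (ι n) n)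
    (hwin : ∀ D : ℕ, {e : ℂ | ∃ n₀, ∀ d < D, E (n₀ + d) = e * a (n₀ + d) + s (n₀ + d)}.Infinite) :
    False := by
  have hb : ∀ i, Hol (s - L i) := by
    intro i
    obtain ⟨V₁, hV₁, h1⟩ := hs
    obtain ⟨V₂, hV₂, h2⟩ := hL i
    refine ⟨V₁ ⊔ V₂, good_sup hV₁ hV₂, Submodule.sub_mem _ ?_ ?_⟩
    · exact Submodule.mem_sup_left (S := V₁) (T := V₂) h1
    · exact Submodule.mem_sup_right (S := V₁) (T := V₂) h2
  obtain ⟨Z, W, hZ, hW, hZW, he⟩ := exists_prod a (fun i => s - L i) ha hb Finset.univ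
  obtain ⟨D, N, hD⟩ := window hZ hW hZW
  have hSinf := hwin (N + 1 + D)
  set S := {e : ℂ | ∃ n₀, ∀ d < N + 1 + D, E (n₀ + d) = e * a (n₀ + d) + s (n₀ + d)} with hS
  have hev : ∀ e ∈ S, ∃ n₀, ∀ n ≥ n₀, ∃ i, e * a n + s n = L i n := by
    rintro e ⟨n₀, hn₀⟩
    refine ⟨n₀ + (N + 1), fun n hn => ?_⟩
    have h0 := hD _ (he e) (n₀ + (N + 1)) (by omega) (fun d hd => by
      rw [Finset.prod_apply]
      refine Finset.prod_eq_zero (Finset.mem_univ (ι (n₀ + (N + 1) + d))) ?_
      simp only [Pi.add_apply, Pi.smul_apply, smul_eq_mul, Pi.sub_apply]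
      have := hn₀ (N + 1 + d) (by omega)
      rw [← add_assoc, hE _ (by omega)] at this
      rw [this]
      ring) n hn
    rw [Finset.prod_apply, Finset.prod_eq_zero_iff] at h0
    obtain ⟨i, -, hi⟩ := h0
    refine ⟨i, ?_⟩
    simp only [Pi.add_apply, Pi.smul_apply, smul_eq_mul, Pi.sub_apply] at hi
    linear_combination hi
  obtain ⟨A, hAS, hAc⟩ := hSinf.exists_subset_card_eq (r + 1)
  choose! n₀ hn₀ using hev
  let n := A.sup n₀
  have hn : ∀ e ∈ A, ∃ i, e * a n + s n = L i n := fun e he =>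
    hn₀ e (hAS he) n (Finset.le_sup (f := n₀) he)
  have : Nonempty (Fin r) := ⟨ι 0⟩
  choose! idx hidx using hn
  have hinj : Set.InjOn idx A := by
    intro e he e' he' hee
    have h1 := hidx e he
    have h2 := hidx e' he'
    rw [hee, ← h2] at h1
    have h3 : e * a n = e' * a n := by linear_combination h1
    exact mul_right_cancel₀ (ha0 n) h3
  have hcard := Finset.card_le_card_of_injOn idx (fun e _ => Finset.mem_univ (idx e)) hinj
  rw [hAc, Finset.card_univ, Fintype.card_fin] at hcard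
  omega

/-! ### The example -/

open H923R2

theorem e_not (a₀ m : ℕ) (hm : 1 ≤ m) : ¬ FinitelyManyPRec (fun n => DegNT.e (a₀ + m * n)) := by
  rintro ⟨r, L, ι, hL, hE⟩
  refine not_finitely_many r (fun n => (DegNT.e (a₀ + m * n) : ℂ)) (fun n => (2 : ℂ) ^ (a₀ + m * n))
    (fun n => 6 * (DegNT.x (a₀ + m * n + 1) : ℂ) + 3 * (DegNT.x (a₀ + m * n + 2) : ℂ)) L ι
    (fun n => pow_ne_zero _ two_ne_zero) ?_ ?_ (fun i => hol_of_prec (hL i)) hE ?_
  · have h1 := good_ap (DegRec.good_geom 2) a₀ m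
    exact hol_of_good h1 ⟨_, Submodule.mem_span_singleton_self _, rfl⟩
  · obtain ⟨V, hV, hx⟩ := DegMap.x_rec
    have h1 := hV.2 _ hx
    have h2 := hV.2 _ h1
    have h3 := V.add_mem (V.smul_mem (6 : ℂ) h1) (V.smul_mem (3 : ℂ) h2)
    exact hol_of_good (good_ap hV a₀ m) ⟨_, h3, rfl⟩
  · intro D
    have hinf := DegNT.infinite_values (a₀ + m + m * D)
    refine (hinf.image (Complex.ofReal_injective.injOn)).mono ?_
    rintro _ ⟨y, ⟨n, hn, rfl, hd⟩, rfl⟩
    refine ⟨n / m + 1, fun d hdD => ?_⟩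
    have h0 : m * (n / m) + n % m = n := Nat.div_add_mod n m
    have h1 : n % m < m := Nat.mod_lt _ (by omega)
    have h2 : m * (n / m + 1 + d) = m * (n / m) + m + m * d := by ring
    have h3 : m * d ≤ m * D := Nat.mul_le_mul_left _ hdD.le
    obtain ⟨c, hc⟩ : ∃ c, a₀ + m * (n / m + 1 + d) = n + c :=
      ⟨a₀ + m * (n / m + 1 + d) - n, by omega⟩
    have hcD : c ≤ a₀ + m + m * D := by omega
    have h4 := DegNT.e_eq (n + c)
    rw [hd c hcD] at h4
    have h5 : ((DegNT.e (n + c) : ℝ) : ℂ) = ((6 * DegNT.x (n + c + 1) + 3 * DegNT.x (n + c + 2) +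
      2 ^ (n + c) * DegNT.R n : ℝ) : ℂ) := by rw [h4]
    push_cast at h5
    simp only [hc]
    rw [h5]
    ring

/-- constant-coefficient recurrences are P-recursive -/
theorem prec_of_linRec {L : ℕ → ℂ} (h : DegMap.IsLinRec L) : IsPRec L := by
  obtain ⟨k, _, c, hc⟩ := h
  refine ⟨k, fun i => if h : i < k then C (-c ⟨i, h⟩) else 1, ?_, fun n hn => ?_⟩
  · simp
  · rw [Finset.sum_range_succ, hc n hn]
    have h1 : ∑ i ∈ Finset.range k, (if h : i < k then C (-c ⟨i, h⟩) else (1 : ℂ[X])).eval (n : ℂ) *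
        L (n + i) = ∑ i : Fin k, -(c i * L (n + i)) := by
      rw [← Fin.sum_univ_eq_sum_range (fun i => (if h : i < k then C (-c ⟨i, h⟩)
        else (1 : ℂ[X])).eval (n : ℂ) * L (n + i)) k]
      refine Finset.sum_congr rfl fun i _ => ?_
      rw [dif_pos i.2, eval_C]
      ring
    rw [h1, Finset.sum_neg_distrib]
    simp

end Pool.Agent.Y166.HO
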